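import Mathlib

set_option autoImplicit false
open Cardinal Set Filter Topology

namespace Pool.Agent.Results.MP_af568f_an.NoBasic

variable {𝕜 : Type} [RCLike 𝕜]

lemma card_k : #𝕜 = 𝔠 := by
  apply le_antisymm
  · have : Function.Injective (fun z : 𝕜 => ((RCLike.re z, RCLike.im z) : ℝ × ℝ)) := by
      intro a b h
      exact RCLike.ext (Prod.ext_iff.mp h).1 (Prod.ext_iff.mp h).2
    have := mk_le_of_injective this
    simpa [mk_real] using this
  · have := mk_le_of_injective (RCLike.ofReal_injective (K := 𝕜))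
    simpa [mk_real] using this

lemma exists_tau (K : Subfield 𝕜) (hK : #K < 𝔠) (B : Type) (hB : #B < 𝔠) :
    ∃ τ : B → 𝕜, LinearIndependent K τ ∧ ∀ b, 1 ≤ ‖τ b‖ := by
  have hr : Module.rank K 𝕜 = 𝔠 := by
    rw [← card_k (𝕜 := 𝕜)]
    apply Module.Free.rank_eq_mk_of_infinite_lt
    simpa [card_k] using hK
  obtain ⟨s, hs, hli⟩ := exists_set_linearIndependent K 𝕜
  have : #B ≤ #s := by rw [hs, hr]; exact hB.le
  obtain ⟨e⟩ := this
  have h1 : LinearIndependent K (fun b => (e b : 𝕜)) := hli.comp e e.injective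
  have h2 : ∀ b, ∃ n : ℕ, n ≠ 0 ∧ 1 ≤ n * ‖(e b : 𝕜)‖ := by
    intro b
    have hp : 0 < ‖(e b : 𝕜)‖ := norm_pos_iff.mpr (h1.ne_zero b)
    obtain ⟨n, hn⟩ := exists_nat_gt (1 / ‖(e b : 𝕜)‖)
    refine ⟨n, ?_, ?_⟩
    · rintro rfl
      have : 0 < 1 / ‖(e b : 𝕜)‖ := by positivity
      simp only [Nat.cast_zero] at hn
      linarith
    · rw [div_lt_iff₀ hp] at hn; exact hn.le
  choose n hn0 hn using h2
  refine ⟨_, h1.units_smul (fun b => Units.mk0 (n b : K) (by exact_mod_cast hn0 b)), fun b => ?_⟩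
  have : ((Units.mk0 (n b : K) (by exact_mod_cast hn0 b)) • (e b : 𝕜)) = (n b : 𝕜) * e b := by
    simp [Units.smul_def, Subfield.smul_def]
  simp only [Pi.smul_apply']
  rw [this, norm_mul, RCLike.norm_natCast]
  exact hn b

lemma step (X : Type) [AddCommGroup X] [Module 𝕜 X] (hX : Module.rank 𝕜 X < 𝔠) (ι : Type)
    (hι : #ι < 𝔠) (s : ι → ℕ → X) (g : ι → ι → ℕ → 𝕜) (y : ℕ → X) :
    ∃ f : X →ₗ[𝕜] 𝕜, (LinearIndependent 𝕜 y → ∀ n, 1 ≤ ‖f (y n)‖) ∧
      ∀ i, LinearIndependent 𝕜 (s i) →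
        (fun n => f (s i n)) ∉ Submodule.span 𝕜 (range (g i)) := by
  classical
  obtain ⟨B, b, hb⟩ : ∃ (B : Type) (b : Module.Basis B 𝕜 X),
      LinearIndependent 𝕜 y → ∀ n, ∃ β, b β = y n := by
    by_cases hy : LinearIndependent 𝕜 y
    · refine ⟨_, Module.Basis.extend hy.linearIndepOn_id, fun _ n => ?_⟩
      exact ⟨⟨y n, Module.Basis.subset_extend hy.linearIndepOn_id ⟨n, rfl⟩⟩,
        Module.Basis.extend_apply_self _ _⟩
    · exact ⟨_, Module.Basis.ofVectorSpace 𝕜 X, fun h => absurd h hy⟩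
  have hB : #B < 𝔠 := by rw [b.mk_eq_rank'']; exact hX
  have c0 : ℵ₀ < 𝔠 := aleph0_lt_continuum
  let K : Subfield 𝕜 := Subfield.closure
    (range (fun p : ι × ℕ × B => b.repr (s p.1 p.2.1) p.2.2) ∪
      range (fun p : ι × ι × ℕ => g p.1 p.2.1 p.2.2))
  have hK : #K < 𝔠 := by
    refine lt_of_le_of_lt (Subfield.cardinalMk_closure_le_max _) (max_lt ?_ c0)
    refine lt_of_le_of_lt (mk_union_le _ _) (add_lt_of_lt c0.le ?_ ?_)
    · refine lt_of_le_of_lt mk_range_le ?_
      simp only [mk_prod, lift_id, mk_nat]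
      exact mul_lt_of_lt c0.le hι (mul_lt_of_lt c0.le c0 hB)
    · refine lt_of_le_of_lt mk_range_le ?_
      simp only [mk_prod, lift_id, mk_nat]
      exact mul_lt_of_lt c0.le hι (mul_lt_of_lt c0.le hι c0)
  obtain ⟨τ, hτ, hτ1⟩ := exists_tau K hK B hB
  refine ⟨b.constr 𝕜 τ, fun hy n => ?_, fun i hi hmem => ?_⟩
  · obtain ⟨β, hβ⟩ := hb hy n
    rw [← hβ, Module.Basis.constr_basis]
    exact hτ1 β
  have li : LinearIndependent K (fun n => b.constr 𝕜 τ (s i n)) := by
    rw [linearIndependent_iff']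
    intro T c hc n hn
    set z := ∑ n ∈ T, (c n : 𝕜) • s i n with hz
    have hzK : ∀ β, b.repr z β ∈ K := by
      intro β
      rw [hz, map_sum, Finsupp.finsetSum_apply]
      refine K.sum_mem fun m _ => ?_
      rw [map_smul, Finsupp.smul_apply, smul_eq_mul]
      exact K.mul_mem (c m).2 (Subfield.subset_closure (Or.inl ⟨(i, m, β), rfl⟩))
    have hfz : b.constr 𝕜 τ z = 0 := by
      rw [hz, map_sum, ← hc]
      exact Finset.sum_congr rfl fun m _ => by rw [map_smul]; rfl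
    rw [Module.Basis.constr_apply] at hfz
    have h0 := linearIndependent_iff'.mp hτ (b.repr z).support (fun β => ⟨b.repr z β, hzK β⟩) hfz
    have hz0 : z = 0 := by
      apply b.repr.injective
      ext β
      by_contra hne
      have := h0 β (by simpa using hne)
      apply hne
      simpa using congrArg Subtype.val this
    have := linearIndependent_iff'.mp hi T (fun n => (c n : 𝕜)) hz0 n hn
    exact Subtype.ext this
  obtain ⟨c, hc⟩ := Finsupp.mem_span_range_iff_exists_finsupp.mp hmem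
  have : Finite ℕ := by
    refine li.finite_of_le_span_finite _ (↑(c.support.image c) : Set 𝕜) ?_
    rintro _ ⟨n, rfl⟩
    have e := congrFun hc n
    simp only at e ⊢
    rw [← e, Finsupp.sum, Finset.sum_apply]
    refine Submodule.sum_mem _ fun j hj => ?_
    have : (c j • g i j) n = (⟨g i j n, Subfield.subset_closure (Or.inr ⟨(i, j, n), rfl⟩)⟩ : K) • c j := by
      simp [Subfield.smul_def, mul_comm]
    rw [this]
    exact Submodule.smul_mem _ _ (Submodule.subset_span (by simpa using ⟨j, by simpa using hj, rfl⟩))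
  exact not_finite ℕ

def L : Type := (𝔠 : Cardinal.{0}).ord.ToType

noncomputable instance : LinearOrder L := inferInstanceAs (LinearOrder (𝔠 : Cardinal.{0}).ord.ToType)
instance : WellFoundedLT L := inferInstanceAs (WellFoundedLT (𝔠 : Cardinal.{0}).ord.ToType)

lemma card_L : #L = 𝔠 := mk_ord_toType _

lemma card_Iio (a : L) : #(Iio a) < 𝔠 := by
  have := mk_Iio_lt (α := (𝔠 : Cardinal.{0}).ord.ToType) a (by simp)
  rw [mk_ord_toType] at this
  exact this

lemma card_Iic (a : L) : #(Iic a) < 𝔠 := by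
  have := mk_Iic_lt (α := (𝔠 : Cardinal.{0}).ord.ToType) a (by simp) (by simp [aleph0_le_continuum])
  rw [mk_ord_toType] at this
  exact this

instance : Infinite L := by
  rw [infinite_iff, card_L]; exact aleph0_le_continuum

lemma bdd (S : Set L) (hS : S.Countable) : ∃ a, ∀ y ∈ S, y < a := by
  rw [← not_isCofinal_iff]
  intro h
  have h1 := Order.cof_le h
  have h2 : Order.cof L = (𝔠 : Cardinal.{0}).ord.cof := Ordinal.cof_toType _
  have h3 := lt_cof_ord_power (a := ℵ₀) (b := 2) le_rfl (by norm_num)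
  rw [two_power_aleph0, ← h2] at h3
  exact absurd (lt_of_lt_of_le h3 h1) (not_lt.mpr (le_aleph0_iff_set_countable.mpr hS))

def Act (a : L) (s : ℕ → (L →₀ 𝕜)) : Prop :=
  LinearIndependent 𝕜 s ∧ ∀ n, ∀ β ∈ (s n).support, β < a

lemma exists_t : ∃ t : L → ℕ → (L →₀ 𝕜), ∀ s, LinearIndependent 𝕜 s → ∃ a, t a = s ∧ Act a s := by
  have hc : #((ℕ → (L →₀ 𝕜)) × L) = #L := by
    simp [card_L, card_k]
  obtain ⟨e⟩ := Cardinal.eq.mp hc
  refine ⟨fun a => (e.symm a).1, fun s hs => ?_⟩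
  obtain ⟨a, ha⟩ := bdd (⋃ n, ((s n).support : Set L)) (countable_iUnion fun n => (s n).support.countable_toSet)
  by_contra hcon
  have : ∀ c, e (s, c) ∈ Iic a := by
    intro c
    by_contra h
    refine hcon ⟨e (s, c), by simp, hs, fun n β hβ => ?_⟩
    exact lt_trans (ha β (mem_iUnion.mpr ⟨n, hβ⟩)) (not_le.mp h)
  have h2 := mk_le_of_injective (f := fun c => (⟨e (s, c), this c⟩ : Iic a))
    (fun c d h => by simpa using h)
  rw [card_L] at h2
  exact absurd (card_Iic a) (not_lt.mpr h2)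

lemma act_li (a : L) (s : ℕ → (L →₀ 𝕜)) (h : Act a s) :
    LinearIndependent 𝕜 (fun n => Finsupp.lsubtypeDomain (R := 𝕜) (Iio a) (s n)) := by
  apply LinearIndependent.of_comp (Finsupp.lmapDomain 𝕜 𝕜 (Subtype.val : Iio a → L))
  convert h.1 using 1
  funext n
  simp only [Function.comp, Finsupp.lmapDomain_apply, Finsupp.lsubtypeDomain_apply]
  ext β
  by_cases hβ : β < a
  · exact Finsupp.mapDomain_apply Subtype.val_injective _ (⟨β, hβ⟩ : Iio a)
  · rw [Finsupp.mapDomain_of_notMem_range _ _ (by rintro ⟨c, rfl⟩; exact hβ c.2)]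
    by_contra hne
    exact hβ (h.2 n β (by simpa using Ne.symm hne))

lemma step' (t : L → ℕ → (L →₀ 𝕜)) (a : L) (prev : ∀ c, c < a → ((L →₀ 𝕜) →ₗ[𝕜] 𝕜)) :
    ∃ f : (L →₀ 𝕜) →ₗ[𝕜] 𝕜, (∀ β, a ≤ β → f (Finsupp.single β 1) = 0) ∧
      (Act a (t a) → ∀ n, 1 ≤ ‖f (t a n)‖) ∧
      ∀ c < a, Act a (t c) → (fun n => f (t c n)) ∉
        Submodule.span 𝕜 (range fun d : Iio a => fun n => prev d d.2 (t c n)) := by
  obtain ⟨f, h1, h2⟩ := step (𝕜 := 𝕜) (Iio a →₀ 𝕜) (by simpa using card_Iio a) (Iio a) (card_Iio a)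
    (fun c n => Finsupp.lsubtypeDomain (R := 𝕜) (Iio a) (t c n))
    (fun c d n => prev d d.2 (t c n)) (fun n => Finsupp.lsubtypeDomain (R := 𝕜) (Iio a) (t a n))
  refine ⟨f ∘ₗ Finsupp.lsubtypeDomain (Iio a), fun β hβ => ?_, fun h => h1 (act_li _ _ h),
    fun c hc h => h2 ⟨c, hc⟩ (act_li _ _ h)⟩
  have : Finsupp.lsubtypeDomain (R := 𝕜) (Iio a) (Finsupp.single β (1 : 𝕜)) = 0 := by
    ext c
    have : β ≠ c := fun h => absurd c.2 (not_lt.mpr (h ▸ hβ))
    simp [Finsupp.lsubtypeDomain_apply, this]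
  simp [this]

lemma exists_F (t : L → ℕ → (L →₀ 𝕜)) : ∃ F : L → (L →₀ 𝕜) →ₗ[𝕜] 𝕜, ∀ a,
    (∀ β, a ≤ β → F a (Finsupp.single β 1) = 0) ∧
      (Act a (t a) → ∀ n, 1 ≤ ‖F a (t a n)‖) ∧
      ∀ c < a, Act a (t c) → (fun n => F a (t c n)) ∉
        Submodule.span 𝕜 (range fun d : Iio a => fun n => F d (t c n)) := by
  let F : L → (L →₀ 𝕜) →ₗ[𝕜] 𝕜 :=
    (wellFounded_lt (α := L)).fix fun a prev => Classical.choose (step' t a prev)
  refine ⟨F, fun a => ?_⟩
  have e : F a = Classical.choose (step' t a fun c _ => F c) := WellFounded.fix_eq _ _ _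
  rw [e]
  exact Classical.choose_spec (step' t a fun c _ => F c)

lemma main : ∃ F : L → (L →₀ 𝕜) →ₗ[𝕜] 𝕜, ∀ s : ℕ → (L →₀ 𝕜), LinearIndependent 𝕜 s →
    (∃ a, ∀ n, 1 ≤ ‖F a (s n)‖) ∧
    ∃ v ∉ Submodule.span 𝕜 (range s), ∀ J : Finset L,
      ∃ u ∈ Submodule.span 𝕜 (range s), ∀ j ∈ J, F j u = F j v := by
  classical
  obtain ⟨t, ht⟩ := exists_t (𝕜 := 𝕜)
  obtain ⟨F, hF⟩ := exists_F t
  refine ⟨F, fun s hs => ?_⟩
  obtain ⟨a, rfl, ha⟩ := ht s hs
  refine ⟨⟨a, (hF a).2.1 ha⟩, Finsupp.single a 1, fun hmem => ?_, fun J => ?_⟩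
  · have : ∀ u ∈ Submodule.span 𝕜 (range (t a)), Finsupp.lapply (R := 𝕜) a u = (0 : 𝕜) := by
      intro u hu
      have : Submodule.span 𝕜 (range (t a)) ≤ LinearMap.ker (Finsupp.lapply (R := 𝕜) (M := 𝕜) a) := by
        rw [Submodule.span_le]
        rintro _ ⟨n, rfl⟩
        by_contra h
        exact lt_irrefl _ (ha.2 n a (by simpa using h))
      exact this hu
    simpa using this _ hmem
  · let T : (L →₀ 𝕜) →ₗ[𝕜] (J → 𝕜) := LinearMap.pi fun j => F j
    by_contra hcon
    have hn : T (Finsupp.single a 1) ∉ (Submodule.span 𝕜 (range (t a))).map T := by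
      rintro ⟨u, hu, e⟩
      exact hcon ⟨u, hu, fun j hj => congrFun e ⟨j, hj⟩⟩
    obtain ⟨φ, h1, h2⟩ := Submodule.exists_le_ker_of_notMem hn
    set c : J → 𝕜 := fun j => φ (fun i => if j = i then 1 else 0) with hc
    have hφ : ∀ u, φ (T u) = ∑ j : J, c j * F j u := by
      intro u
      rw [LinearMap.pi_apply_eq_sum_univ]
      exact Finset.sum_congr rfl fun j _ => by simp [T, hc, mul_comm]
    rw [hφ] at h1
    obtain ⟨j0, -, hj0⟩ := Finset.exists_ne_zero_of_sum_ne_zero h1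
    have hj1 : a < j0 := by
      by_contra h
      exact hj0 (by rw [(hF j0).1 a (not_lt.mp h), mul_zero])
    obtain ⟨m, hm, hmax⟩ := Finset.exists_max_image (Finset.univ.filter fun j : J => c j ≠ 0)
      (fun j => (j : L)) ⟨j0, by simpa using left_ne_zero_of_mul hj0⟩
    have hm0 : c m ≠ 0 := by simpa using hm
    have ham : a < m := lt_of_lt_of_le hj1 (hmax j0 (by simpa using left_ne_zero_of_mul hj0))
    apply (hF m).2.2 a ham ⟨hs, fun n β hβ => lt_trans (ha.2 n β hβ) ham⟩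
    have e : (fun n => F m (t a n)) =
        ∑ j ∈ Finset.univ.erase m, (-(c m)⁻¹ * c j) • fun n => F j (t a n) := by
      funext n
      have h3 : φ (T (t a n)) = 0 := h2 ⟨t a n, Submodule.subset_span ⟨n, rfl⟩, rfl⟩
      rw [hφ, ← Finset.add_sum_erase _ _ (Finset.mem_univ m)] at h3
      rw [Finset.sum_apply]
      simp only [Pi.smul_apply, smul_eq_mul, mul_assoc]
      rw [← Finset.mul_sum, eq_neg_of_add_eq_zero_right h3]
      field_simp
    rw [e]
    refine Submodule.sum_mem _ fun j hj => ?_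
    by_cases hcj : c j = 0
    · simp [hcj]
    · have : (j : L) < m := lt_of_le_of_ne (hmax j (by simpa using hcj))
        (fun h => (Finset.mem_erase.mp hj).1 (Subtype.ext h))
      exact Submodule.smul_mem _ _ (Submodule.subset_span ⟨⟨j, this⟩, rfl⟩)

lemma exists_li (v : L →₀ 𝕜) (hv : v ≠ 0) : ∃ s : ℕ → (L →₀ 𝕜), LinearIndependent 𝕜 s ∧ s 0 = v := by
  classical
  have h1 : LinearIndepOn 𝕜 id ({v} : Set (L →₀ 𝕜)) := by simpa using hv
  let b := Module.Basis.extend h1
  have hinf : Infinite (h1.extend (subset_univ _)) := by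
    rw [infinite_iff, b.mk_eq_rank'']
    simp [card_L, aleph0_le_continuum]
  let e := Infinite.natEmbedding (h1.extend (subset_univ _))
  let v' : h1.extend (subset_univ _) := ⟨v, Module.Basis.subset_extend h1 rfl⟩
  refine ⟨fun n => b (Equiv.swap (e 0) v' (e n)),
    b.linearIndependent.comp _ ((Equiv.swap (e 0) v').injective.comp e.injective), ?_⟩
  simp only [Equiv.swap_apply_left]
  exact Module.Basis.extend_apply_self _ _

theorem result (𝕜 : Type) [RCLike 𝕜] :
    ∃ (U : Type) (_ : AddCommGroup U) (_ : Module 𝕜 U) (_ : TopologicalSpace U),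
      IsTopologicalAddGroup U ∧ ContinuousSMul 𝕜 U ∧ T2Space U ∧
      (∃ (ι : Type) (p : SeminormFamily 𝕜 U ι), WithSeminorms p) ∧
      ¬ FiniteDimensional 𝕜 U ∧
      ∀ x : ℕ → U, ¬ ∀ v ∈ closure (Submodule.span 𝕜 (range x) : Set U),
        ∃! a : ℕ → 𝕜, Tendsto (fun N => ∑ n ∈ Finset.range N, a n • x n) atTop (𝓝 v) := by
  classical
  obtain ⟨F, hF⟩ := main (𝕜 := 𝕜)
  let Φ : (L →₀ 𝕜) →ₗ[𝕜] (L → 𝕜) := LinearMap.pi F
  have hinj : Function.Injective Φ := by
    rw [injective_iff_map_eq_zero]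
    intro v hv
    by_contra hne
    obtain ⟨s, hs, rfl⟩ := exists_li v hne
    obtain ⟨a, ha⟩ := (hF s hs).1
    have h1 := ha 0
    have h2 : F a (s 0) = 0 := congrFun hv a
    rw [h2, norm_zero] at h1
    linarith
  let τ : TopologicalSpace (L →₀ 𝕜) := TopologicalSpace.induced Φ inferInstance
  have hind : IsInducing Φ := ⟨rfl⟩
  have i1 : IsTopologicalAddGroup (L →₀ 𝕜) := hind.topologicalAddGroup Φ
  refine ⟨L →₀ 𝕜, inferInstance, inferInstance, τ, i1,
    hind.continuousSMul continuous_id (fun {c x} => map_smul Φ c x),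
    (IsEmbedding.mk hind hinj).t2Space,
    ⟨_, _, hind.withSeminorms (withSeminorms_pi fun _ => norm_withSeminorms 𝕜 𝕜)⟩, ?_, ?_⟩
  · intro h
    have := Module.rank_lt_aleph0 𝕜 (L →₀ 𝕜)
    simp only [rank_finsupp_self', card_L] at this
    exact absurd this (not_lt.mpr aleph0_le_continuum)
  intro x hx
  have fin : ∀ a : ℕ → 𝕜, ∀ M, (∀ n, M ≤ n → a n = 0) →
      Tendsto (fun N => ∑ n ∈ Finset.range N, a n • x n) atTop
        (𝓝 (∑ n ∈ Finset.range M, a n • x n)) := by
    intro a M ha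
    refine tendsto_const_nhds.congr' ?_
    filter_upwards [eventually_ge_atTop M] with N hN
    refine Finset.sum_subset (Finset.range_mono hN) fun n _ hn => ?_
    rw [ha n (by simpa using hn), zero_smul]
  have hli : LinearIndependent 𝕜 x := by
    rw [linearIndependent_iff]
    intro l hl
    obtain ⟨M, hM⟩ := l.support.exists_nat_subset_range
    have h1 := fin l M fun n hn => by
      by_contra h
      have := hM (Finsupp.mem_support_iff.mpr h)
      simp at this; omega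
    have e : ∑ n ∈ Finset.range M, l n • x n = 0 := by
      rw [← hl, Finsupp.linearCombination_apply, Finsupp.sum_of_support_subset _ hM _ (by simp)]
    rw [e] at h1
    have h2 := fin 0 0 (by simp)
    simp only [Finset.range_zero, Finset.sum_empty] at h2
    have := (hx 0 (subset_closure (Submodule.zero_mem _))).unique h1 h2
    exact DFunLike.coe_injective this
  obtain ⟨v, hv, hJ⟩ := (hF x hli).2
  choose u hu hu2 using hJ
  have hcl : v ∈ closure (Submodule.span 𝕜 (range x) : Set (L →₀ 𝕜)) := by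
    refine mem_closure_of_tendsto (f := u) (b := atTop) ?_ (Eventually.of_forall hu)
    rw [hind.tendsto_nhds_iff, tendsto_pi_nhds]
    intro j
    refine tendsto_const_nhds.congr' ?_
    filter_upwards [eventually_ge_atTop {j}] with J hJ
    exact (hu2 J j (hJ (by simp))).symm
  obtain ⟨a, ha, -⟩ := hx v hcl
  by_cases hfin : {n | a n ≠ 0}.Infinite
  · have t0 : Tendsto (fun n => a n • x n) atTop (𝓝 0) := by
      have := (ha.comp (tendsto_add_atTop_nat 1)).sub ha
      simpa [Finset.sum_range_succ] using this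
    have hφ := Nat.nth_strictMono hfin
    have l2 : LinearIndependent 𝕜 (fun k => a (Nat.nth (fun n => a n ≠ 0) k) •
        x (Nat.nth (fun n => a n ≠ 0) k)) :=
      (hli.comp _ hφ.injective).units_smul fun k => Units.mk0 _ (Nat.nth_mem_of_infinite hfin k)
    obtain ⟨j, hj⟩ := (hF _ l2).1
    have t1 := t0.comp hφ.tendsto_atTop
    rw [hind.tendsto_nhds_iff, tendsto_pi_nhds] at t1
    have t2 := (t1 j).norm
    have := ge_of_tendsto' t2 hj
    simp at this
    linarith
  · obtain ⟨M, hM⟩ := (not_infinite.mp hfin).bddAbove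
    have h1 := fin a (M + 1) fun n hn => by
      by_contra h
      have := hM h
      omega
    have : T2Space (L →₀ 𝕜) := (IsEmbedding.mk hind hinj).t2Space
    apply hv
    rw [tendsto_nhds_unique ha h1]
    exact Submodule.sum_mem _ fun n _ => Submodule.smul_mem _ _ (Submodule.subset_span ⟨n, rfl⟩)

end Pool.Agent.Results.MP_af568f_an.NoBasic
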